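import Mathlib

namespace Pool.Agent.Results.MP_b20271_lc.EqTimesLt

/-- A set `A` of pieces (in use: a partition of `W`) is tuned in the frame `(W, R)`: if some point
of a piece `U` sees some point of a piece `V`, then every point of `U` sees a point of `V`. -/
def Tuned {W : Type} (R : W → W → Prop) (A : Set (Set W)) : Prop :=
  ∀ U ∈ A, ∀ V ∈ A, (∃ u ∈ U, ∃ v ∈ V, R u v) → ∀ u ∈ U, ∃ v ∈ V, R u v

/-- `B` refines `A`: every member of `A` is a union of members of `B`. -/
def Refines {W : Type} (B A : Set (Set W)) : Prop :=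
  ∀ U ∈ A, ∃ S ⊆ B, U = ⋃₀ S

/-- The frame `(W, R)` is tunable: every finite partition of `W` has a finite refinement (again a
partition) which is tuned. `Setoid.IsPartition` is the partition predicate of Mathlib: no piece is
empty and every point lies in exactly one piece. -/
def Tunable {W : Type} (R : W → W → Prop) : Prop :=
  ∀ A : Set (Set W), Setoid.IsPartition A → A.Finite →
    ∃ B : Set (Set W), Setoid.IsPartition B ∧ B.Finite ∧ Refines B A ∧ Tuned R B

/-- The direct product of two frames: one relation, acting coordinatewise. -/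
def directProduct {W₁ W₂ : Type} (R₁ : W₁ → W₁ → Prop) (R₂ : W₂ → W₂ → Prop) :
    W₁ × W₂ → W₁ × W₂ → Prop :=
  fun x y => R₁ x.1 y.1 ∧ R₂ x.2 y.2

theorem tunable_eq : Tunable (fun x y : ℕ => x = y) := by
  intro A hA hfin
  refine ⟨A, hA, hfin, ?_, ?_⟩
  · intro U hU
    exact ⟨{U}, by simpa using hU, by simp⟩
  · intro U hU V hV ⟨u, hu, v, hv, huv⟩ u' hu'
    subst huv
    obtain ⟨b, _, huniq⟩ := hA.2 u
    have h1 := huniq U ⟨hU, hu⟩
    have h2 := huniq V ⟨hV, hv⟩
    refine ⟨u', ?_, rfl⟩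
    rw [h2, ← h1]
    exact hu'

theorem tunable_lt : Tunable (fun x y : ℕ => x < y) := by
  intro A hA hfin
  -- a bound for the finite pieces
  obtain ⟨N, hN⟩ : ∃ N : ℕ, ∀ P ∈ A, P.Finite → ∀ x ∈ P, x < N := by
    have hf : (⋃₀ {P ∈ A | P.Finite}).Finite := by
      apply Set.Finite.sUnion (hfin.subset (fun P hP => hP.1))
      intro t ht
      exact ht.2
    obtain ⟨M, hM⟩ := hf.bddAbove
    refine ⟨M + 1, fun P hP hPf x hx => ?_⟩
    have : x ≤ M := hM ⟨P, ⟨hP, hPf⟩, hx⟩
    omega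
  have hinfdiff : ∀ P : Set ℕ, P.Infinite → (P \ Set.Iio N).Infinite := fun P hP =>
    hP.sdiff (Set.finite_Iio N)
  let B : Set (Set ℕ) := (fun i : ℕ => ({i} : Set ℕ)) '' Set.Iio N ∪
    (fun P : Set ℕ => P \ Set.Iio N) '' {P ∈ A | P.Infinite}
  have hcell : ∀ x, ∃ P ∈ A, x ∈ P := by
    intro x
    obtain ⟨b, hb, _⟩ := hA.2 x
    exact ⟨b, hb.1, hb.2⟩
  have huniq : ∀ x, ∀ P ∈ A, ∀ Q ∈ A, x ∈ P → x ∈ Q → P = Q := by
    intro x P hP Q hQ hxP hxQ
    exact (hA.2 x).unique ⟨hP, hxP⟩ ⟨hQ, hxQ⟩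
  refine ⟨B, ⟨?_, ?_⟩, ?_, ?_, ?_⟩
  · rintro (⟨i, _, hi⟩ | ⟨P, hP, hPe⟩)
    · exact Set.singleton_ne_empty i hi
    · have := hinfdiff P hP.2
      have h2 : P \ Set.Iio N = ∅ := hPe
      rw [h2] at this
      exact this Set.finite_empty
  · intro x
    by_cases hx : x < N
    · refine ⟨{x}, ⟨Or.inl ⟨x, hx, rfl⟩, rfl⟩, ?_⟩
      rintro b ⟨(⟨i, _, rfl⟩ | ⟨P, hP, rfl⟩), hxb⟩
      · have : x = i := hxb
        rw [this]
      · exact absurd hx hxb.2
    · obtain ⟨P, hP, hxP⟩ := hcell x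
      have hPinf : P.Infinite := by
        intro hPf
        exact hx (hN P hP hPf x hxP)
      refine ⟨P \ Set.Iio N, ⟨Or.inr ⟨P, ⟨hP, hPinf⟩, rfl⟩, hxP, hx⟩, ?_⟩
      rintro b ⟨(⟨i, hi, rfl⟩ | ⟨Q, hQ, rfl⟩), hxb⟩
      · have hxi : x = i := hxb
        exact absurd (hxi ▸ hi) hx
      · have : Q = P := huniq x Q hQ.1 P hP hxb.1 hxP
        rw [this]
  · exact ((Set.finite_Iio N).image _).union ((hfin.subset (fun P hP => hP.1)).image _)
  · intro P hP
    refine ⟨{b ∈ B | b ⊆ P}, fun b hb => hb.1, ?_⟩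
    apply Set.Subset.antisymm
    · intro x hxP
      by_cases hx : x < N
      · exact ⟨{x}, ⟨Or.inl ⟨x, hx, rfl⟩, by simpa using hxP⟩, rfl⟩
      · have hPinf : P.Infinite := by
          intro hPf
          exact hx (hN P hP hPf x hxP)
        exact ⟨P \ Set.Iio N, ⟨Or.inr ⟨P, ⟨hP, hPinf⟩, rfl⟩, Set.sdiff_subset⟩, hxP, hx⟩
    · rintro x ⟨b, hb, hxb⟩
      exact hb.2 hxb
  · intro U hU V hV ⟨u, hu, v, hv, huv⟩ u' hu'
    rcases hV with ⟨i, hi, rfl⟩ | ⟨P, hP, rfl⟩
    · have hvi : v = i := hv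
      have hi' : i < N := hi
      have huv' : u < v := huv
      have huN : u < N := by omega
      rcases hU with ⟨j, hj, rfl⟩ | ⟨Q, hQ, rfl⟩
      · have h1 : u = j := hu
        have h2 : u' = j := hu'
        refine ⟨v, hv, ?_⟩
        change u' < v
        omega
      · exact absurd huN hu.2
    · obtain ⟨v', hv', hlt⟩ := (hinfdiff P hP.2).exists_gt u'
      exact ⟨v', hv', hlt⟩

theorem not_tunable_prod :
    ¬ Tunable (directProduct (fun x y : ℕ => x = y) (fun x y : ℕ => x < y)) := by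
  intro h
  let D : Set (ℕ × ℕ) := {p | p.1 = p.2}
  let A : Set (Set (ℕ × ℕ)) := {D, Dᶜ}
  have hA : Setoid.IsPartition A := by
    refine ⟨?_, ?_⟩
    · rintro (h1 | h1)
      · have : ((0, 0) : ℕ × ℕ) ∈ D := rfl
        rw [← h1] at this
        exact this
      · have h1' : (∅ : Set (ℕ × ℕ)) = Dᶜ := h1
        have : ((0, 1) : ℕ × ℕ) ∈ Dᶜ := by
          intro h2
          exact absurd (show (0 : ℕ) = 1 from h2) (by norm_num)
        rw [← h1'] at this
        exact this
    · intro x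
      by_cases hx : x ∈ D
      · refine ⟨D, ⟨Or.inl rfl, hx⟩, ?_⟩
        rintro b ⟨(rfl | hb), hxb⟩
        · rfl
        · have hb' : b = Dᶜ := hb
          rw [hb'] at hxb
          exact absurd hx hxb
      · refine ⟨Dᶜ, ⟨Or.inr rfl, hx⟩, ?_⟩
        rintro b ⟨(rfl | hb), hxb⟩
        · exact absurd hxb hx
        · exact hb
  have hAf : A.Finite := Set.toFinite _
  obtain ⟨B, hB, hBf, hBr, hBt⟩ := h A hA hAf
  have hcell : ∀ x, ∃ P ∈ B, x ∈ P := by
    intro x
    obtain ⟨b, hb, _⟩ := hB.2 x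
    exact ⟨b, hb.1, hb.2⟩
  choose c hcB hc using hcell
  have huniq : ∀ x, ∀ P ∈ B, x ∈ P → P = c x := by
    intro x P hP hxP
    exact (hB.2 x).unique ⟨hP, hxP⟩ ⟨hcB x, hc x⟩
  set n := hBf.toFinset.card with hn
  have key : ∀ k j : ℕ, j + k = n → ∀ m, (n, m) ∈ c (n, j) → m = j := by
    intro k
    induction k with
    | zero =>
      intro j hj m hm
      have hj' : j = n := by omega
      rw [hj'] at hm ⊢
      obtain ⟨S, hS, hSU⟩ := hBr D (Or.inl rfl)
      have h1 : (n, n) ∈ ⋃₀ S := by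
        rw [← hSU]
        exact rfl
      obtain ⟨s, hs, hsm⟩ := h1
      have h2 := huniq (n, n) s (hS hs) hsm
      have h3 : (n, m) ∈ D := by
        rw [hSU]
        refine ⟨s, hs, ?_⟩
        rw [h2]
        exact hm
      have h4 : n = m := h3
      exact h4.symm
    | succ k ih =>
      intro j hj m hm
      have ih' := ih (j + 1) (by omega)
      have hCD : ∀ u ∈ c (n, j), ∃ v ∈ c (n, j + 1),
          directProduct (fun x y : ℕ => x = y) (fun x y : ℕ => x < y) u v :=
        hBt _ (hcB _) _ (hcB _) ⟨(n, j), hc _, (n, j + 1), hc _, rfl, Nat.lt_succ_self j⟩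
      have hle : ∀ m, (n, m) ∈ c (n, j) → m ≤ j := by
        intro m hm
        obtain ⟨⟨v1, v2⟩, hv, hv1, hv2⟩ := hCD _ hm
        have hv1' : n = v1 := hv1
        have hv2' : m < v2 := hv2
        subst hv1'
        have := ih' v2 hv
        omega
      by_contra hne
      have hlt : m < j := lt_of_le_of_ne (hle m hm) hne
      obtain ⟨⟨v1, v2⟩, hv, hv1, hv2⟩ :=
        hBt _ (hcB (n, j)) _ (hcB (n, j)) ⟨(n, m), hm, (n, j), hc _, rfl, hlt⟩ (n, j) (hc _)
      have hv1' : n = v1 := hv1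
      have hv2' : j < v2 := hv2
      subst hv1'
      have := hle v2 hv
      omega
  have hinj : Set.InjOn (fun j : ℕ => c (n, j)) (Finset.range (n + 1) : Set ℕ) := by
    intro i hi j hj hij
    have hj' : j < n + 1 := by simpa using hj
    have h1 : (n, i) ∈ c (n, j) := by
      have h2 : c (n, i) = c (n, j) := hij
      rw [← h2]
      exact hc _
    exact key (n - j) j (by omega) i h1
  have hcard : (Finset.range (n + 1)).card ≤ hBf.toFinset.card := by
    apply Finset.card_le_card_of_injOn (fun j : ℕ => c (n, j)) _ hinj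
    intro j _
    simpa using hcB (n, j)
  rw [Finset.card_range] at hcard
  omega

/-- The frames `(ℕ, =)` and `(ℕ, <)` are tunable and their direct product is not. So tunability is
not preserved by direct products of frames. -/
theorem result :
    Tunable (fun x y : ℕ => x = y) ∧ Tunable (fun x y : ℕ => x < y) ∧
      ¬ Tunable (directProduct (fun x y : ℕ => x = y) (fun x y : ℕ => x < y)) :=
  ⟨tunable_eq, tunable_lt, not_tunable_prod⟩

end Pool.Agent.Results.MP_b20271_lc.EqTimesLt
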