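import Mathlib

/-!
# The direct product of two tunable frames need not be tunable

`(ω, ≤)` is tunable, and so are `(ω, =)` and the fan (the partial order with a least element and
infinitely many further, pairwise incomparable elements). But the number of members of a tuned
refinement of a partition of `(ω, ≤)` into three sets cannot be bounded: a tuned refinement of the
partition of `ω` into the even numbers below `2 n`, the odd numbers below `2 n` and the numbers
`≥ 2 n` contains all the singletons `{x}`, `x < 2 n`. In `(ω, ≤) × (ω, =)`, which is the disjoint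
union of infinitely many copies of `(ω, ≤)`, these partitions for `n = 0, 1, 2, ...` form one
partition into three sets, which has no finite tuned refinement.
-/

namespace Pool.Agent.Results.MP_b20271_lc.ProductNotTunable

open Set

universe u v

/-- `𝒜` is a partition of `W`: its members are nonempty and every point of `W` is in exactly one
of them. -/
def IsPartition {W : Type u} (𝒜 : Set (Set W)) : Prop :=
  (∀ A ∈ 𝒜, A.Nonempty) ∧ ∀ x : W, ∃! A, A ∈ 𝒜 ∧ x ∈ A

/-- `ℬ` refines `𝒜`: every member of `𝒜` is a union of members of `ℬ`. -/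
def Refines {W : Type u} (ℬ 𝒜 : Set (Set W)) : Prop :=
  ∀ A ∈ 𝒜, ∃ 𝒮 ⊆ ℬ, A = ⋃₀ 𝒮

/-- `𝒜` is tuned in the frame `(W, R)`: if some point of `U` sees a point of `V` then every point
of `U` does, for all `U, V ∈ 𝒜`. -/
def Tuned {W : Type u} (R : W → W → Prop) (𝒜 : Set (Set W)) : Prop :=
  ∀ U ∈ 𝒜, ∀ V ∈ 𝒜, (∃ x ∈ U, ∃ y ∈ V, R x y) → ∀ x ∈ U, ∃ y ∈ V, R x y

/-- The frame `(W, R)` is tunable: every finite partition of `W` has a finite tuned refinement. -/
def Tunable {W : Type u} (R : W → W → Prop) : Prop :=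
  ∀ 𝒜 : Set (Set W), IsPartition 𝒜 → 𝒜.Finite →
    ∃ ℬ : Set (Set W), IsPartition ℬ ∧ ℬ.Finite ∧ Refines ℬ 𝒜 ∧ Tuned R ℬ

/-- The direct product of the frames `(W₁, R₁)` and `(W₂, R₂)`: one relation, acting
coordinatewise. -/
def prodRel {W₁ : Type u} {W₂ : Type v} (R₁ : W₁ → W₁ → Prop) (R₂ : W₂ → W₂ → Prop) :
    W₁ × W₂ → W₁ × W₂ → Prop :=
  fun x y => R₁ x.1 y.1 ∧ R₂ x.2 y.2

/-- The fan on `ℕ`: the partial order in which `0` is the least element and the other elements
are maximal. -/
def fan (a b : ℕ) : Prop := a = 0 ∨ a = b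

/-- The partition given by a colouring. -/
def fibres {W : Type u} {C : Type v} (c : W → C) : Set (Set W) := {A | ∃ x, A = {y | c y = c x}}

theorem fibres_partition {W : Type u} {C : Type v} (c : W → C) : IsPartition (fibres c) := by
  refine ⟨?_, fun x => ⟨{y | c y = c x}, ⟨⟨x, rfl⟩, rfl⟩, ?_⟩⟩
  · rintro A ⟨x, rfl⟩
    exact ⟨x, rfl⟩
  · rintro A ⟨⟨z, rfl⟩, hx⟩
    have hx' : c x = c z := hx
    rw [hx']

theorem fibres_finite {W : Type u} {C : Type v} (c : W → C) (h : (range c).Finite) :
    (fibres c).Finite := by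
  have : fibres c ⊆ (fun i => {y | c y = i}) '' range c := by
    rintro A ⟨x, rfl⟩
    exact ⟨c x, ⟨x, rfl⟩, rfl⟩
  exact (h.image _).subset this

/-- It is enough to find tuned refinements of finite colourings. -/
theorem tunable_of {W : Type u} {R : W → W → Prop}
    (H : ∀ 𝒜 : Set (Set W), 𝒜.Finite → ∀ c : W → Set W, (∀ x, c x ∈ 𝒜) →
      ∃ (C : Type) (d : W → C), (range d).Finite ∧ (∀ x y, d x = d y → c x = c y) ∧
        ∀ x x' y, d x = d x' → R x y → ∃ y', d y' = d y ∧ R x' y') : Tunable R := by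
  intro 𝒜 h𝒜 hfin
  choose c hc hcu using h𝒜.2
  obtain ⟨C, d, hd, hdc, htun⟩ := H 𝒜 hfin c (fun x => (hc x).1)
  refine ⟨fibres d, fibres_partition d, fibres_finite d hd, ?_, ?_⟩
  · intro A hA
    refine ⟨{B | B ∈ fibres d ∧ B ⊆ A}, fun B hB => hB.1, ?_⟩
    ext x
    constructor
    · intro hx
      refine ⟨{y | d y = d x}, ⟨⟨x, rfl⟩, ?_⟩, rfl⟩
      intro y hy
      have h1 : c y = c x := hdc y x hy
      have h2 : A = c x := hcu x A ⟨hA, hx⟩
      rw [h2, ← h1]
      exact (hc y).2
    · rintro ⟨B, hB, hx⟩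
      exact hB.2 hx
  · rintro U ⟨a, rfl⟩ V ⟨b, rfl⟩ ⟨x, hx, y, hy, hxy⟩ x' hx'
    have h1 : d x = d x' := Eq.trans hx hx'.symm
    obtain ⟨y', hy', hR⟩ := htun x x' y h1 hxy
    exact ⟨y', hy'.trans hy, hR⟩

/-- `(ω, ≤)` is tunable. -/
theorem tunable_le : Tunable (fun a b : ℕ => a ≤ b) := by
  classical
  apply tunable_of
  intro 𝒜 hfin c hc
  -- a bound for the finite members of the partition
  have hN : ∃ N : ℕ, ∀ x, N ≤ x → ∀ M, ∃ y, M ≤ y ∧ N ≤ y ∧ c y = c x := by
    have h1 : ∀ A : Set ℕ, ∃ N, ({y | c y = A}).Finite → ∀ y, c y = A → y < N := by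
      intro A
      by_cases h : ({y | c y = A}).Finite
      · obtain ⟨N, hN⟩ := h.bddAbove
        exact ⟨N + 1, fun _ y hy => Nat.lt_succ_of_le (hN hy)⟩
      · exact ⟨0, fun h' => absurd h' h⟩
    choose f hf using h1
    obtain ⟨N, hN⟩ := (hfin.image f).bddAbove
    refine ⟨N, fun x hx M => ?_⟩
    have hinf : ({y | c y = c x}).Infinite := by
      intro hfin'
      have h2 := hf (c x) hfin' x rfl
      have h3 : f (c x) ≤ N := hN ⟨c x, hc x, rfl⟩
      omega
    obtain ⟨y, hy, hlt⟩ := hinf.exists_gt (max M N)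
    exact ⟨y, by omega, by omega, hy⟩
  obtain ⟨N, hN⟩ := hN
  refine ⟨ℕ ⊕ Set ℕ, fun x => if x < N then Sum.inl x else Sum.inr (c x), ?_, ?_, ?_⟩
  · refine (((Set.finite_Iio N).image (Sum.inl : ℕ → ℕ ⊕ Set ℕ)).union
      (hfin.image (Sum.inr : Set ℕ → ℕ ⊕ Set ℕ))).subset ?_
    rintro _ ⟨x, rfl⟩
    by_cases h : x < N
    · left
      exact ⟨x, h, by simp [h]⟩
    · right
      exact ⟨c x, hc x, by simp [h]⟩
  · intro x y h
    by_cases hx : x < N
    · by_cases hy : y < N
      · simp only [hx, hy, if_true, Sum.inl.injEq] at h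
        rw [h]
      · simp [hx, hy] at h
    · by_cases hy : y < N
      · simp [hx, hy] at h
      · simpa [hx, hy] using h
  · intro x x' y h hxy
    by_cases hx : x < N
    · by_cases hx' : x' < N
      · simp only [hx, hx', if_true, Sum.inl.injEq] at h
        subst h
        exact ⟨y, rfl, hxy⟩
      · simp [hx, hx'] at h
    · have hy : ¬ y < N := fun h' => hx (lt_of_le_of_lt hxy h')
      obtain ⟨y', hy1, hy2, hy3⟩ := hN y (not_lt.1 hy) x'
      refine ⟨y', ?_, hy1⟩
      simp [hy, not_lt.2 hy2, hy3]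

/-- `(ω, =)` is tunable. -/
theorem tunable_eq : Tunable (fun a b : ℕ => a = b) := by
  intro 𝒜 h𝒜 hfin
  refine ⟨𝒜, h𝒜, hfin, fun A hA => ⟨{A}, by simpa using hA, by simp⟩, ?_⟩
  rintro U hU V hV ⟨x, hx, y, hy, rfl⟩ x' hx'
  have : U = V := (h𝒜.2 x).unique ⟨hU, hx⟩ ⟨hV, hy⟩
  exact ⟨x', this ▸ hx', rfl⟩

/-- The fan is tunable. -/
theorem tunable_fan : Tunable fan := by
  classical
  apply tunable_of
  intro 𝒜 hfin c hc
  refine ⟨Option (Set ℕ), fun x => if x = 0 then none else some (c x), ?_, ?_, ?_⟩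
  · refine ((Set.finite_singleton (none : Option (Set ℕ))).union (hfin.image some)).subset ?_
    rintro _ ⟨x, rfl⟩
    by_cases h : x = 0
    · left
      simp [h]
    · right
      exact ⟨c x, hc x, by simp [h]⟩
  · intro x y h
    by_cases hx : x = 0
    · by_cases hy : y = 0
      · rw [hx, hy]
      · simp [hx, hy] at h
    · by_cases hy : y = 0
      · simp [hx, hy] at h
      · simpa [hx, hy] using h
  · intro x x' y h hxy
    by_cases hx : x = 0
    · by_cases hx' : x' = 0
      · exact ⟨y, rfl, Or.inl hx'⟩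
      · simp [hx, hx'] at h
    · rcases hxy with hxy | hxy
      · exact absurd hxy hx
      · subst hxy
        exact ⟨x', h.symm, Or.inr rfl⟩

/-- If the second frame has infinitely many reflexive, pairwise unrelated points, then its direct
product with `(ω, ≤)` is not tunable. -/
theorem not_tunable {W : Type u} (R : W → W → Prop) (e : ℕ → W) (he : ∀ m n, R (e m) (e n) ↔ m = n) :
    ¬ Tunable (prodRel (fun a b : ℕ => a ≤ b) R) := by
  classical
  intro H
  have hinj : Function.Injective e := by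
    intro m n h
    rw [← he, h, he]
  -- the colouring
  let c : ℕ × W → ℕ := fun p =>
    if h : ∃ n, p.2 = e n then (if p.1 < 2 * h.choose then p.1 % 2 else 2) else 3
  have hc1 : ∀ x n, x < 2 * n → c (x, e n) = x % 2 := by
    intro x n hx
    have h : ∃ m, (x, e n).2 = e m := ⟨n, rfl⟩
    have h1 : h.choose = n := (hinj h.choose_spec).symm
    have h2 : x < 2 * h.choose := by rw [h1]; exact hx
    show (if h : ∃ m, (x, e n).2 = e m then
      (if (x, e n).1 < 2 * h.choose then (x, e n).1 % 2 else 2) else 3) = x % 2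
    rw [dif_pos h]
    exact if_pos h2
  have hc2 : ∀ p : ℕ × W, c p < 2 → ∃ n, p.2 = e n ∧ p.1 < 2 * n := by
    intro p hp
    by_cases h : ∃ n, p.2 = e n
    · refine ⟨h.choose, h.choose_spec, ?_⟩
      by_contra h2
      have h3 : c p = 2 := by
        show (if h : ∃ m, p.2 = e m then (if p.1 < 2 * h.choose then p.1 % 2 else 2) else 3) = 2
        rw [dif_pos h, if_neg h2]
      omega
    · have h3 : c p = 3 := by
        show (if h : ∃ m, p.2 = e m then (if p.1 < 2 * h.choose then p.1 % 2 else 2) else 3) = 3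
        rw [dif_neg h]
      omega
  have hcr : (range c).Finite := by
    refine (Set.finite_Iio 4).subset ?_
    rintro _ ⟨p, rfl⟩
    show (if h : ∃ m, p.2 = e m then (if p.1 < 2 * h.choose then p.1 % 2 else 2) else 3) < 4
    split_ifs <;> omega
  obtain ⟨ℬ, hℬ, hfin, href, htun⟩ := H (fibres c) (fibres_partition c) (fibres_finite c hcr)
  choose cl hcl hclu using hℬ.2
  -- points of the same member of `ℬ` have the same colour
  have hcol : ∀ B ∈ ℬ, ∀ p ∈ B, ∀ q ∈ B, c q = c p := by
    intro B hB p hp q hq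
    obtain ⟨𝒮, h𝒮, hA⟩ := href {y | c y = c p} ⟨p, rfl⟩
    have hp' : p ∈ ⋃₀ 𝒮 := by
      rw [← hA]
      exact rfl
    obtain ⟨B', hB', hpB'⟩ := hp'
    have : B = B' := (hℬ.2 p).unique ⟨hB, hp⟩ ⟨h𝒮 hB', hpB'⟩
    have hq' : q ∈ ⋃₀ 𝒮 := ⟨B', hB', this ▸ hq⟩
    rw [← hA] at hq'
    exact hq'
  -- the points `(x, e n)`, `x < 2 * n`, are in different members of `ℬ`
  have hmain : ∀ n k y, y < 2 * n → 2 * n - y = k → ∀ x, x < y → cl (x, e n) ≠ cl (y, e n) := by
    intro n k
    induction k using Nat.strong_induction_on with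
    | _ k ih =>
      intro y hy hk x hxy heq
      have h1 : c (y, e n) = c (x, e n) :=
        hcol _ (hcl (x, e n)).1 _ (hcl (x, e n)).2 _ (heq ▸ (hcl (y, e n)).2)
      rw [hc1 y n hy, hc1 x n (hxy.trans hy)] at h1
      have h2 : ∃ z ∈ cl (x + 1, e n), prodRel (fun a b : ℕ => a ≤ b) R (y, e n) z := by
        refine htun _ (hcl (x, e n)).1 _ (hcl (x + 1, e n)).1
          ⟨(x, e n), (hcl (x, e n)).2, (x + 1, e n), (hcl (x + 1, e n)).2, ?_⟩ (y, e n)
          (heq ▸ (hcl (y, e n)).2)
        exact ⟨Nat.le_succ x, (he n n).2 rfl⟩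
      obtain ⟨⟨z, w⟩, hz, hyz, hw⟩ := h2
      have hyz' : y ≤ z := hyz
      have hw' : R (e n) w := hw
      have h3 : c (z, w) = c (x + 1, e n) :=
        hcol _ (hcl (x + 1, e n)).1 _ (hcl (x + 1, e n)).2 _ hz
      rw [hc1 (x + 1) n (by omega)] at h3
      obtain ⟨m, hm, hzm⟩ := hc2 (z, w) (by omega)
      have hm' : w = e m := hm
      have hzm' : z < 2 * m := hzm
      rw [hm'] at hw'
      have hnm : n = m := (he n m).1 hw'
      subst hnm
      rw [hm', hc1 z n hzm'] at h3
      have hclz : cl (x + 1, e n) = cl (z, e n) := by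
        refine hclu (z, e n) _ ⟨(hcl (x + 1, e n)).1, ?_⟩
        rw [hm'] at hz
        exact hz
      exact ih (2 * n - z) (by omega) z hzm' rfl (x + 1) (by omega) hclz
  -- counting
  have hcount : ∀ n, 2 * n ≤ hfin.toFinset.card := by
    intro n
    have h1 : ((Finset.range (2 * n)).image fun x => cl (x, e n)) ⊆ hfin.toFinset := by
      intro B hB
      obtain ⟨x, -, rfl⟩ := Finset.mem_image.1 hB
      exact hfin.mem_toFinset.2 (hcl (x, e n)).1
    have h2 : ((Finset.range (2 * n)).image fun x => cl (x, e n)).card = 2 * n := by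
      rw [Finset.card_image_of_injOn, Finset.card_range]
      intro x hx y hy hxy
      have hx' : x < 2 * n := by simpa using hx
      have hy' : y < 2 * n := by simpa using hy
      by_contra hne
      rcases lt_or_gt_of_ne hne with h | h
      · exact hmain n _ y hy' rfl x h hxy
      · exact hmain n _ x hx' rfl y h hxy.symm
    calc 2 * n = _ := h2.symm
      _ ≤ _ := Finset.card_le_card h1
  have := hcount (hfin.toFinset.card + 1)
  omega

/-- **Full answer to Q1 (negative).** The frame `(ω, ≤)`, the frame `(ω, =)` and the fan (a partial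
order with a least element) are tunable, but the direct products `(ω, ≤) × (ω, =)` and
`(ω, ≤) × fan` are not tunable. -/
theorem result :
    Tunable (fun a b : ℕ => a ≤ b) ∧ Tunable (fun a b : ℕ => a = b) ∧ Tunable fan ∧
    ¬ Tunable (prodRel (fun a b : ℕ => a ≤ b) (fun a b : ℕ => a = b)) ∧
    ¬ Tunable (prodRel (fun a b : ℕ => a ≤ b) fan) := by
  refine ⟨tunable_le, tunable_eq, tunable_fan, ?_, ?_⟩
  · exact not_tunable _ (fun n => n) fun m n => Iff.rfl
  · refine not_tunable _ (fun n => n + 1) fun m n => ?_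
    constructor
    · rintro (h | h)
      · omega
      · omega
    · rintro rfl
      exact Or.inr rfl

end Pool.Agent.Results.MP_b20271_lc.ProductNotTunable
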